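import Mathlib
import Pool.Agent.N600.LG.Final
import Pool.Agent.N600.LG.P9

/-!
# The second-order term of the growth function: linear growth, and no limit for all `d ≥ 2`

For a group `Γ` with a finite generating set `S` let `β(k)` be the number of elements of word length
at most `k`.  If `Γ` is virtually infinite cyclic (these are exactly the virtually nilpotent groups
with degree of growth `d = 1`), then for EVERY finite generating set `S` all spheres of large radius
have the same size: there are an integer `c ≥ 1` and an integer `b` with `β(k) = c k + b` for all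
large `k`.  So `c₁ = c` and `Δ(k) = (β(k) - c₁ k) / k^(d-1)` has a limit (it is eventually constant).
The same is true (and trivial) for finite groups, `d = 0`.

For every `d ≥ 2` there is one group (virtually abelian, with degree of growth `d`) with two finite
generating sets `S`, `S'` such that `Δ` has no limit for `S` and has a limit for `S'`.  So the
existence of the limit depends on the generating set, and `d ≤ 1` are the only degrees for which it
always exists.

Proof.  There are a homomorphism `ε : Γ → {1, -1}` and a crossed homomorphism `x : Γ → ℤ`,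
`x(gh) = x(g) + ε(g) x(h)`, with finite `{ε = 1, x = 0}`.  After adding a multiple of the
coboundary `1 - ε` to `2 x` the extreme values of the new crossed homomorphism `U` on the letters
are `V` and `-V`, and are attained at letters `p`, `q` with `ε(p) = ε(q)`.  Then
`R(g) = g p^{...}` (`g p` if `ε(g) = 1`, `g q` otherwise) is injective and raises `U` by `V`, and the
analogous `L` is injective and lowers `U` by `V`.  With `D = #{-V ≤ U < V}` this gives
`β(k+1) ≥ β(k) + D` for large `k` and `β(k) ≤ D k + const`, so `β(k+1) = β(k) + D` for large `k`.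
For `d = 2` take the triangle rotation group (3,3,3), generated by rotations `r`, `s` of order three
about two centres: the balls are computed (hexagons, up to two missing points), and
`β(2j) = 9 j² + 5 j - 1`, `β(2j+1) = 9 j² + 13 j + 5`, so `Δ(2j) → 5/2` and `Δ(2j+1) → 2`; for the 21
elements whose translation part lies in the hexagon of radius one `β(k) = 9 k² + 9 k + 3`.  For
larger `d` take the product with `ℤ^(d-2)`, with generating sets `B(1) × {-1,0,1}^(d-2)`.
-/

set_option autoImplicit false

open Filter Topology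
open Pool.Agent.N600.LG

theorem Pool.Agent.Results.MP_b3b911_al.LinearGrowth.result :
    -- degree of growth one
    (∀ (Γ : Type) [Group Γ] [Infinite Γ] (H : Subgroup Γ) [H.FiniteIndex] [IsCyclic H]
      (S : Set Γ), S.Finite → Subgroup.closure S = ⊤ →
      ∃ (c : ℕ) (b : ℤ), 0 < c ∧
        (∃ k0 : ℕ, ∀ k, k0 ≤ k →
          (beta S k : ℤ) = c * k + b ∧ (Ball S (k + 1) \ Ball S k).ncard = c) ∧
        Tendsto (fun k : ℕ => (beta S k : ℝ) / (k : ℝ) ^ 1) atTop (𝓝 (c : ℝ)) ∧
        Tendsto (fun k : ℕ => ((beta S k : ℝ) - c * (k : ℝ) ^ 1) / (k : ℝ) ^ 0) atTop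
          (𝓝 (b : ℝ))) ∧
    -- finite groups
    (∀ (Γ : Type) [Group Γ] [Finite Γ] (S : Set Γ), Subgroup.closure S = ⊤ →
      ∃ k0, ∀ k, k0 ≤ k → beta S k = Nat.card Γ) ∧
    -- all degrees at least two: no limit for one generating set, a limit for another one
    (∀ d : ℕ, 2 ≤ d →
      ∃ (Γ : Type) (_ : Group Γ) (H : Subgroup Γ) (S S' : Set Γ) (c c' L' : ℝ),
      H.FiniteIndex ∧ (∀ x ∈ H, ∀ y ∈ H, x * y = y * x) ∧
      S.Finite ∧ S'.Finite ∧ Subgroup.closure S = ⊤ ∧ Subgroup.closure S' = ⊤ ∧ 0 < c ∧ 0 < c' ∧
      Tendsto (fun k : ℕ => (beta S k : ℝ) / (k : ℝ) ^ d) atTop (𝓝 c) ∧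
      (¬ ∃ L : ℝ, Tendsto
        (fun k : ℕ => ((beta S k : ℝ) - c * (k : ℝ) ^ d) / (k : ℝ) ^ (d - 1)) atTop (𝓝 L)) ∧
      Tendsto (fun k : ℕ => (beta S' k : ℝ) / (k : ℝ) ^ d) atTop (𝓝 c') ∧
      Tendsto (fun k : ℕ => ((beta S' k : ℝ) - c' * (k : ℝ) ^ d) / (k : ℝ) ^ (d - 1)) atTop
        (𝓝 L')) := by
  refine ⟨?_, ?_, all_degrees⟩
  · intro Γ _ _ H _ _ S hSf hS
    obtain ⟨c, b, k0, hc, h⟩ := virt_growth H S hSf hS
    exact ⟨c, b, hc, ⟨k0, fun k hk => ⟨h k hk, sphere_card hSf h k hk⟩⟩, tend1 h, tend2 h⟩
  · intro Γ _ _ S hS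
    exact fin_growth S hS
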